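import Pool.Agent.H.MP_7f0ddb_an.E

set_option autoImplicit false

namespace Pool.Agent.Results.MP_7f0ddb_an.No

open Pool.Agent.H.MP_7f0ddb_an

/-- matrix entry of an operator -/
noncomputable def en {I : Type} (a : Op I) (x y : I) : ℂ := a (dl x) y

/-- unital star homomorphism -/
def IsHom {A B : Type} [CStarAlgebra A] [CStarAlgebra B] (f : A → B) : Prop :=
  f 1 = 1 ∧ (∀ a b, f (a + b) = f a + f b) ∧ (∀ a b, f (a * b) = f a * f b) ∧
    (∀ a, f (star a) = star (f a)) ∧ ∀ (c : ℂ) a, f (c • a) = c • f a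

/-- faithful unital representation on l2(I) -/
def Faithful {A I : Type} [CStarAlgebra A] (p : A → Op I) : Prop :=
  Function.Injective p ∧ IsHom p

/-- D is the minimal (spatial) tensor product of A and B with elementary tensors t a b -/
def MinTensor {A B D : Type} [CStarAlgebra A] [CStarAlgebra B] [CStarAlgebra D]
    (t : A → B → D) : Prop :=
  ∃ (I J : Type) (p : A → Op I) (q : B → Op J) (r : D → Op (I × J)),
    Faithful p ∧ Faithful q ∧ Faithful r ∧
    (∀ a b x y, en (r (t a b)) x y = en (p a) x.1 y.1 * en (q b) x.2 y.2) ∧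
    Dense (Submodule.span ℂ {d | ∃ a b, d = t a b} : Set D)

/-- action of a group by star automorphisms -/
def IsAction {K D : Type} [Group K] [CStarAlgebra D] (σ : K → D → D) : Prop :=
  (∀ k, Function.Bijective (σ k) ∧ IsHom (σ k)) ∧ ∀ k l a, σ (k * l) a = σ k (σ l a)

/-- the Rokhlin property -/
def Rok {K D : Type} [Group K] [Fintype K] [CStarAlgebra D] (σ : K → D → D) : Prop :=
  ∀ (F : Finset D) (ε : ℝ), 0 < ε → ∃ e : K → D, (∀ k, IsStarProjection (e k)) ∧
    (∀ k l, k ≠ l → e k * e l = 0) ∧ (∀ k l, ‖σ k (e l) - e (k * l)‖ < ε) ∧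
    (∀ k, ∀ a ∈ F, ‖e k * a - a * e k‖ < ε) ∧ ∑ k, e k = 1

lemma isAction {K D : Type} [Group K] [CStarAlgebra D] (σ : K →* (D ≃⋆ₐ[ℂ] D)) :
    IsAction fun k a => σ k a :=
  ⟨fun k => ⟨(σ k).bijective, map_one _, map_add _, map_mul _, map_star _, map_smul _⟩,
    fun k l a => by simp only [map_mul]; rfl⟩

theorem result : ∃ (A B D : Type) (_ : CStarAlgebra A) (_ : CStarAlgebra B) (_ : CStarAlgebra D)
    (t : A → B → D) (α : ℤˣ → A → A) (β : ℤˣ → B → B) (γ : ℤˣ × ℤˣ → D → D),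
    IsSimpleRing A ∧ IsSimpleRing B ∧ MinTensor t ∧ StablyFinite D ∧
    IsAction α ∧ IsAction β ∧ IsAction γ ∧
    (∀ g h a b, γ (g, h) (t a b) = t (α g a) (β h b)) ∧ Rok γ ∧ ¬ Rok α := by
  have := sA.Alg_closed
  have := sB.Alg_closed
  have := (sA.pr sB).Alg_closed
  refine ⟨sA.Alg, sB.Alg, (sA.pr sB).Alg, inferInstance, inferInstance, inferInstance, tt sA sB,
    _, _, _, sA.simple ndA, sB.simple ndB,
    ⟨GA, GB, Subtype.val, Subtype.val, Subtype.val,
      ⟨Subtype.val_injective, rfl, fun _ _ => rfl, fun _ _ => rfl, fun _ => rfl, fun _ _ => rfl⟩,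
      ⟨Subtype.val_injective, rfl, fun _ _ => rfl, fun _ _ => rfl, fun _ => rfl, fun _ _ => rfl⟩,
      ⟨Subtype.val_injective, rfl, fun _ _ => rfl, fun _ _ => rfl, fun _ => rfl, fun _ _ => rfl⟩,
      fun a b => tp_en a.1 b.1, ?_⟩,
    (sA.pr sB).fin, isAction (cA.act sA), isAction (cB.act sB),
    isAction ((cA.pr cB).act (sA.pr sB)), act_tt sA sB cA cB, rok, not_rok⟩
  rw [Subtype.dense_iff]
  refine (tt_span sA sB).subset.trans (closure_mono fun x hx => ?_)
  induction hx using Submodule.span_induction with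
  | mem x hx =>
    obtain ⟨a, b, rfl⟩ := hx
    exact ⟨_, Submodule.subset_span ⟨a, b, rfl⟩, rfl⟩
  | zero => exact ⟨0, zero_mem _, rfl⟩
  | add x y _ _ h k =>
    obtain ⟨x, h, rfl⟩ := h
    obtain ⟨y, k, rfl⟩ := k
    exact ⟨x + y, add_mem h k, rfl⟩
  | smul c x _ h =>
    obtain ⟨x, h, rfl⟩ := h
    exact ⟨c • x, Submodule.smul_mem _ c h, rfl⟩

end Pool.Agent.Results.MP_7f0ddb_an.No
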